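import Mathlib
import Pool.Agent.H48.BB

set_option autoImplicit false

namespace Pool.Agent.Results.MP_6d0c2f_al.Yes

/-- Centrally essential rings. -/
def CentrallyEssential (R : Type) [Ring R] : Prop :=
  ∀ a : R, a ≠ 0 → ∃ x ∈ Subring.center R, ∃ y ∈ Subring.center R, x ≠ 0 ∧ y ≠ 0 ∧ a * x = y

/-- Indecomposable abelian groups. -/
def Indecomposable (B : Type) [AddCommGroup B] : Prop :=
  ∀ B₁ B₂ : AddSubgroup B, IsCompl B₁ B₂ → B₁ = ⊥ ∨ B₂ = ⊥

/-- No direct summand is both nonzero and indecomposable. -/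
def SuperDecomposable (A : Type) [AddCommGroup A] : Prop :=
  ∀ B : AddSubgroup A, (∃ B' : AddSubgroup A, IsCompl B B') → ¬ (B ≠ ⊥ ∧ Indecomposable B)

open Pool.Agent.H48.BB

theorem super {A : Type} [AddCommGroup A] (h : ∀ e : AddMonoid.End A, e ≠ 0 → ∃ c : AddMonoid.End A,
    c * c = c ∧ c * e = e * c ∧ e * c ≠ 0 ∧ e * (1 - c) ≠ 0) : SuperDecomposable A := by
  rintro B ⟨B', hB⟩ ⟨h0, h1⟩
  have hc := AddSubgroup.toIntSubmodule.isCompl hB
  let e : AddMonoid.End A := (Submodule.projection _ _ hc).toAddMonoidHom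
  have e1 : ∀ x, e x ∈ B := Submodule.projection_apply_mem hc
  have e2 : ∀ x ∈ B, e x = x := fun x hx => Submodule.projection_apply_of_mem_left hc hx
  obtain ⟨c, c1, c2, c3, c4⟩ := h e fun he => h0 (eq_bot_iff.mpr fun x hx => by
    rw [← e2 x hx, he]
    rfl)
  replace c1 : ∀ x, c (c x) = c x := DFunLike.congr_fun c1
  replace c2 : ∀ x, c (e x) = e (c x) := DFunLike.congr_fun c2
  have c5 : ∀ x ∈ B, c x ∈ B := fun x hx => by rw [← e2 x hx, c2]; exact e1 _
  rcases h1 (AddMonoidHom.ker (c.comp B.subtype - B.subtype)) (AddMonoidHom.ker (c.comp B.subtype))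
    ⟨AddSubgroup.disjoint_def.mpr fun {x} (h2 : c x - x = 0) (h3 : c x = 0) => Subtype.ext (by
      simpa [h3] using h2), codisjoint_iff.mpr (eq_top_iff.mpr fun x _ => AddSubgroup.mem_sup.mpr
      ⟨⟨c x, c5 _ x.2⟩, sub_eq_zero.mpr (c1 x), x - ⟨c x, c5 _ x.2⟩,
        show c (x - c x) = 0 by rw [map_sub, c1, sub_self], by simp⟩)⟩ with h2 | h2
  · refine c3 (AddMonoidHom.ext fun x => congrArg Subtype.val
      ((AddSubgroup.eq_bot_iff_forall _).mp h2 ⟨e (c x), e1 _⟩ ?_))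
    exact show c (e (c x)) - e (c x) = 0 by rw [c2, c1, sub_self]
  · refine c4 (AddMonoidHom.ext fun x => congrArg Subtype.val
      ((AddSubgroup.eq_bot_iff_forall _).mp h2 ⟨e (x - c x), e1 _⟩ ?_))
    exact show c (e (x - c x)) = 0 by rw [c2, map_sub, c1, sub_self, map_zero]

/-- The group of the coefficient ring. -/
abbrev Γ := ℕ →₀ ZMod 2

/-- The coefficient ring. -/
abbrev C := AddMonoidAlgebra ℚ Γ

/-- The algebra with basis `1, x, y, t, x t = x y, y t`. -/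
def S := Fin 6 → C

noncomputable instance : AddCommGroup S := Pi.addCommGroup
noncomputable instance : Module ℚ S := Pi.module _ _ _

noncomputable instance : Mul S := ⟨fun a b => ![a 0 * b 0, a 0 * b 1 + a 1 * b 0,
  a 0 * b 2 + a 2 * b 0, a 0 * b 3 + a 3 * b 0,
  a 0 * b 4 + a 4 * b 0 + a 1 * b 3 + a 3 * b 1 + a 1 * b 2,
  a 0 * b 5 + a 5 * b 0 + a 2 * b 3 + a 3 * b 2]⟩

/-- Constructor. -/
def mk (a b c d e f : C) : S := ![a, b, c, d, e, f]

theorem ext {a b : S} (h0 : a 0 = b 0) (h1 : a 1 = b 1) (h2 : a 2 = b 2) (h3 : a 3 = b 3)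
    (h4 : a 4 = b 4) (h5 : a 5 = b 5) : a = b := by
  funext i
  fin_cases i <;> assumption

noncomputable instance : One S := ⟨mk 1 0 0 0 0 0⟩

theorem one_def : (1 : S) = mk 1 0 0 0 0 0 := rfl

section
variable (a b : S) (p q r s t u : C)
@[simp] theorem m0 : (a * b) 0 = a 0 * b 0 := rfl
@[simp] theorem m1 : (a * b) 1 = a 0 * b 1 + a 1 * b 0 := rfl
@[simp] theorem m2 : (a * b) 2 = a 0 * b 2 + a 2 * b 0 := rfl
@[simp] theorem m3 : (a * b) 3 = a 0 * b 3 + a 3 * b 0 := rfl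
@[simp] theorem m4 : (a * b) 4 = a 0 * b 4 + a 4 * b 0 + a 1 * b 3 + a 3 * b 1 + a 1 * b 2 := rfl
@[simp] theorem m5 : (a * b) 5 = a 0 * b 5 + a 5 * b 0 + a 2 * b 3 + a 3 * b 2 := rfl
@[simp] theorem k0 : mk p q r s t u 0 = p := rfl
@[simp] theorem k1 : mk p q r s t u 1 = q := rfl
@[simp] theorem k2 : mk p q r s t u 2 = r := rfl
@[simp] theorem k3 : mk p q r s t u 3 = s := rfl
@[simp] theorem k4 : mk p q r s t u 4 = t := rfl
@[simp] theorem k5 : mk p q r s t u 5 = u := rfl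
@[simp] theorem add_ap (i : Fin 6) : (a + b) i = a i + b i := rfl
@[simp] theorem zero_ap (i : Fin 6) : (0 : S) i = 0 := rfl
@[simp] theorem smul_ap (r : ℚ) (i : Fin 6) : (r • a) i = r • a i := rfl
end

noncomputable instance : Ring S where
  left_distrib a b c := by apply ext <;> simp <;> ring
  right_distrib a b c := by apply ext <;> simp <;> ring
  zero_mul a := by apply ext <;> simp
  mul_zero a := by apply ext <;> simp
  mul_assoc a b c := by apply ext <;> simp <;> ring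
  one_mul a := by apply ext <;> simp [one_def]
  mul_one a := by apply ext <;> simp [one_def]
  __ := (inferInstance : AddCommGroup S)

noncomputable instance : Algebra ℚ S := Algebra.ofModule
  (fun r a b => by apply ext <;> simp) (fun r a b => by apply ext <;> simp)

instance : Countable S :=
  have : Countable C := AddMonoidAlgebra.coeff_injective.countable
  inferInstanceAs (Countable (Fin 6 → C))

theorem cen {c : S} (h1 : c 1 = 0) (h2 : c 2 = 0) (b : S) : b * c = c * b := by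
  apply ext <;> simp [h1, h2] <;> ring

/-- The integral group ring. -/
noncomputable def Z : Subring C := (AddMonoidAlgebra.mapRingHom Γ (Int.castRingHom ℚ)).range

theorem single_mem (γ : Γ) (z : ℤ) : AddMonoidAlgebra.single γ (z : ℚ) ∈ Z :=
  ⟨AddMonoidAlgebra.single γ z, by simp⟩

/-- The lattice. -/
noncomputable def L : AddSubgroup S := AddSubgroup.pi Set.univ fun _ => Z.toAddSubgroup

theorem mem_L {s : S} : s ∈ L ↔ ∀ i, s i ∈ Z := ⟨fun h i => h i trivial, fun h i _ => h i⟩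

theorem L_mul {a b : S} (ha : a ∈ L) (hb : b ∈ L) : a * b ∈ L := by
  rw [mem_L] at ha hb ⊢
  have h := fun i j => Z.mul_mem (ha i) (hb j)
  intro i
  fin_cases i
  exacts [h 0 0, add_mem (h 0 1) (h 1 0), add_mem (h 0 2) (h 2 0), add_mem (h 0 3) (h 3 0),
    add_mem (add_mem (add_mem (add_mem (h 0 4) (h 4 0)) (h 1 3)) (h 3 1)) (h 1 2),
    add_mem (add_mem (add_mem (h 0 5) (h 5 0)) (h 2 3)) (h 3 2)]

theorem sp (v : S) : ∃ N : ℕ, N ≠ 0 ∧ (N : ℚ) • v ∈ L := by
  have h0 : ∀ (c : C) (m n : ℕ), (m : ℚ) • c ∈ Z → ((n * m : ℕ) : ℚ) • c ∈ Z := fun c m n h => by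
    rw [Nat.cast_mul, mul_smul, Nat.cast_smul_eq_nsmul]
    exact nsmul_mem h n
  have h : ∀ c : C, ∃ N : ℕ, N ≠ 0 ∧ (N : ℚ) • c ∈ Z := fun c => by
    induction c using AddMonoidAlgebra.induction_linear with
    | zero => exact ⟨1, one_ne_zero, by simp⟩
    | add a b ha hb =>
      obtain ⟨m, h1, h2⟩ := ha
      obtain ⟨n, h3, h4⟩ := hb
      exact ⟨n * m, by positivity, by
        rw [smul_add]; exact add_mem (h0 _ _ _ h2) (mul_comm n m ▸ h0 _ _ _ h4)⟩
    | single γ r => exact ⟨r.den, r.den_ne_zero, by simpa using single_mem γ r.num⟩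
  choose N h1 h2 using fun i => h (v i)
  refine ⟨∏ i, N i, Finset.prod_ne_zero_iff.mpr fun i _ => h1 i, mem_L.mpr fun i => ?_⟩
  obtain ⟨c, hc⟩ := Finset.dvd_prod_of_mem N (Finset.mem_univ i)
  rw [hc, mul_comm]
  exact h0 _ _ _ (h2 i)

theorem red (p : ℕ) (hp : p.Prime) (v : S) (h : ∀ n : ℕ, ((p ^ n : ℕ) : ℚ)⁻¹ • v ∈ I L p) :
    v = 0 := by
  funext i
  ext γ
  refine rat_red hp fun n => ?_
  obtain ⟨m, h1, h2⟩ := h n
  obtain ⟨z, hz⟩ := mem_L.mp h2 i
  exact ⟨m, h1, z.coeff γ, by simpa using congrArg (·.coeff γ) hz.symm⟩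

/-- Right multiplications. -/
noncomputable def T (k : L) : Module.End ℚ S := LinearMap.mulRight ℚ k.1

theorem ex : ∃ Ψ : AddMonoid.End (G L T) →+* S, Function.Injective Ψ ∧
    ∀ s : S, (2 : ℚ) • s ∈ L → ∃ ψ, Ψ ψ = s := by
  obtain ⟨Φ, h1, h2, h3⟩ := main (T := T) (fun k v hv => L_mul hv k.2) sp red
  have h4 : ∀ ψ s, Φ ψ s = Φ ψ 1 * s := fun ψ s => by
    obtain ⟨N, h5, h6⟩ := sp s
    have := LinearMap.congr_fun (h2 ψ ⟨_, h6⟩) 1
    simpa [T, h5] using this
  refine ⟨⟨⟨⟨fun ψ => Φ ψ 1, by simp⟩, fun ψ φ =>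
      show Φ (ψ * φ) 1 = Φ ψ 1 * Φ φ 1 by rw [map_mul, Module.End.mul_apply, h4]⟩,
    by simp, by simp⟩, fun ψ φ (e : Φ ψ 1 = Φ φ 1) => h1 (LinearMap.ext fun s => by
      rw [h4, h4 φ, e]), fun s hs => ?_⟩
  obtain ⟨ψ, e⟩ := h3 (LinearMap.mulLeft ℚ s) (fun k => LinearMap.ext fun v => by
    simp [T, mul_assoc]) ⟨1, fun v hv => by
      have := L_mul hs hv
      rwa [smul_mul_assoc, ← Nat.cast_ofNat, ← pow_one 2] at this⟩
  exact ⟨ψ, show Φ ψ 1 = s by simp [e]⟩

theorem mk_mem (a b c d e f : ℕ) : (2 : ℚ) • mk a b c d e f ∈ L := by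
  refine mem_L.mpr fun i => ?_
  rw [smul_ap, two_smul]
  fin_cases i <;> simp [add_mem]

theorem fresh {s : S} (hs : s ≠ 0) : ∃ g : Γ, g + g = 0 ∧ ∀ r : ℚ,
    s * mk (1 + AddMonoidAlgebra.single g r) 0 0 0 0 0 ≠ 0 := by
  obtain ⟨i, hi⟩ := Function.ne_iff.mp hs
  obtain ⟨γ, hγ⟩ := Finsupp.ne_iff.mp (AddMonoidAlgebra.coeff_injective.ne hi)
  obtain ⟨n, hn⟩ := Infinite.exists_notMem_finset ((s i).coeff.support.biUnion Finsupp.support)
  simp only [Finset.mem_biUnion, Finsupp.mem_support_iff, not_exists, not_and, not_not] at hn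
  refine ⟨Finsupp.single n 1, by rw [← Finsupp.single_add]; exact Finsupp.single_zero n,
    fun r h => hγ ?_⟩
  have h1 : ∀ j, (s * mk (1 + AddMonoidAlgebra.single (Finsupp.single n 1) r) 0 0 0 0 0) j =
      s j * (1 + AddMonoidAlgebra.single (Finsupp.single n 1) r) := fun j => by
    fin_cases j <;> simp
  have h2 := congrArg (·.coeff γ) ((h1 i).symm.trans (congrFun h i))
  have h3 : (s i).coeff (γ - Finsupp.single n 1) = 0 := by_contra fun e => by
    have := hn _ e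
    simp [hn _ hγ] at this
  simp only [mul_add, mul_one, AddMonoidAlgebra.coeff_add, Finsupp.add_apply] at h2
  rw [AddMonoidAlgebra.coeff_mul_single_eq_coeff_mul (γ - Finsupp.single n 1)
    fun _ _ => eq_sub_iff_add_eq.symm, h3, zero_mul, add_zero] at h2
  exact h2

theorem result : ∃ (A : Type) (_ : AddCommGroup A), SuperDecomposable A ∧
    (∃ a b : AddMonoid.End A, a * b ≠ b * a) ∧ CentrallyEssential (AddMonoid.End A) := by
  obtain ⟨Ψ, h1, h2⟩ := ex
  have hc : ∀ x, Ψ x 1 = 0 → Ψ x 2 = 0 → x ∈ Subring.center _ := fun x e e' =>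
    Subring.mem_center_iff.mpr fun b => h1 (by rw [map_mul, map_mul, cen e e'])
  refine ⟨G L T, inferInstance, super fun e he => ?_, ?_, fun a ha => ?_⟩
  · obtain ⟨g, h3, h4⟩ := fresh ((map_ne_zero_iff Ψ h1).mpr he)
    obtain ⟨c, h5⟩ := h2 ((2 : ℚ)⁻¹ • mk (1 + AddMonoidAlgebra.single g 1) 0 0 0 0 0) (by
      rw [smul_smul, mul_inv_cancel₀ two_ne_zero, one_smul]
      have := add_mem Z.one_mem (single_mem g 1)
      refine mem_L.mpr fun i => ?_
      fin_cases i <;> simp_all)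
    refine ⟨c, h1 ?_, (Subring.mem_center_iff.mp (hc c (by simp [h5])
      (by simp [h5])) e).symm, fun h => h4 1 ?_, fun h => h4 (-1) ?_⟩
    · rw [map_mul, h5]
      apply ext <;> simp
      simp only [mul_add, add_mul, AddMonoidAlgebra.single_mul_single, h3, AddMonoidAlgebra.one_def,
        AddMonoidAlgebra.smul_single, zero_add, add_zero]
      rw [← add_add_add_comm, add_comm (AddMonoidAlgebra.single g _) (AddMonoidAlgebra.single 0 _),
        add_add_add_comm, ← AddMonoidAlgebra.single_add, ← AddMonoidAlgebra.single_add]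
      norm_num
    · simpa [h5] using congrArg Ψ h
    · have : (1 : S) - (2 : ℚ)⁻¹ • mk (1 + AddMonoidAlgebra.single g 1) 0 0 0 0 0 =
          (2 : ℚ)⁻¹ • mk (1 + AddMonoidAlgebra.single g (-1)) 0 0 0 0 0 := by
        rw [sub_eq_iff_eq_add]
        apply ext <;> simp [one_def]
        module
      simpa [h5, this] using congrArg Ψ h
  · obtain ⟨x, hx⟩ := h2 _ (mk_mem 0 1 0 0 0 0)
    obtain ⟨y, hy⟩ := h2 _ (mk_mem 0 0 1 0 0 0)
    refine ⟨x, y, fun h => ?_⟩
    simpa [hx, hy] using congrArg (fun a => Ψ a 4) h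
  · have key : ∀ x, Ψ x 1 = 0 → Ψ x 2 = 0 → Ψ (a * x) 1 = 0 → Ψ (a * x) 2 = 0 → a * x ≠ 0 →
        ∃ x ∈ Subring.center _, ∃ y ∈ Subring.center _, x ≠ 0 ∧ y ≠ 0 ∧ a * x = y :=
      fun x e1 e2 e3 e4 e5 => ⟨x, hc x e1 e2, _, hc _ e3 e4, right_ne_zero_of_mul e5, e5, rfl⟩
    by_cases h3 : Ψ a 0 = 0
    · by_cases h4 : Ψ a 1 = 0 ∧ Ψ a 2 = 0
      · exact key 1 (by simp [one_def]) (by simp [one_def]) (by simp [h4]) (by simp [h4])
          (by simpa)
      · obtain ⟨x, hx⟩ := h2 _ (mk_mem 0 0 0 1 0 0)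
        refine key x (by simp [hx]) (by simp [hx]) (by simp [hx, h3])
          (by simp [hx, h3]) fun h => h4 ⟨?_, ?_⟩
        · simpa [hx] using congrArg (fun a => Ψ a 4) h
        · simpa [hx] using congrArg (fun a => Ψ a 5) h
    · obtain ⟨x, hx⟩ := h2 _ (mk_mem 0 0 0 0 1 0)
      refine key x (by simp [hx]) (by simp [hx]) (by simp [hx]) (by simp [hx]) fun h => h3 ?_
      simpa [hx] using congrArg (fun a => Ψ a 4) h

end Pool.Agent.Results.MP_6d0c2f_al.Yes
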